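import Pool.Agent.H88R3.MM.Circ

/-!
# Arithmetic circuits with free linear combinations
-/

set_option autoImplicit false

namespace Pool.Agent.Y624.Mix

open Pool.Agent.H88R3.MM (Vars)

/-- A linear combination, with coefficients in `F`, of `1` (coefficient `c`), of the variables
(coefficients `a`) and of the first `n` products of a circuit (coefficients `b`). -/
structure Form (F V : Type*) (n : ℕ) where
  /-- the coefficient of `1` -/
  c : F
  /-- the coefficients of the variables -/
  a : V → F
  /-- the coefficients of the products -/
  b : Fin n → F

/-- The polynomial given by a linear combination, if `P t` is the product number `t`. -/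
noncomputable def Form.poly {F V : Type*} [Field F] [Fintype V] {n : ℕ} (f : Form F V n)
    (P : Fin n → MvPolynomial V F) : MvPolynomial V F :=
  MvPolynomial.C f.c + ∑ x, MvPolynomial.C (f.a x) * MvPolynomial.X x +
    ∑ t, MvPolynomial.C (f.b t) * P t

/-- An arithmetic circuit with `N` products, in which linear combinations are free: the two factors
of the product number `s` are linear combinations of `1`, of the variables and of the products with
smaller numbers. -/
structure Circ (F V : Type*) (N : ℕ) where
  /-- the first factors -/
  left : (s : Fin N) → Form F V s
  /-- the second factors -/
  right : (s : Fin N) → Form F V s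

section

variable {F V : Type*} [Field F] [Fintype V] {N : ℕ}

/-- The polynomial which is the product number `s`. -/
noncomputable def Circ.prod (C : Circ F V N) (s : ℕ) : MvPolynomial V F :=
  if h : s < N then
    (C.left ⟨s, h⟩).poly (fun t : Fin s => C.prod t) *
      (C.right ⟨s, h⟩).poly (fun t : Fin s => C.prod t)
  else 0
termination_by s
decreasing_by all_goals exact t.2

/-- the first factor of the product number `s`, as a polynomial -/
noncomputable def Circ.leftPoly (C : Circ F V N) (s : Fin N) : MvPolynomial V F :=
  (C.left s).poly fun t : Fin s => C.prod t

/-- the second factor of the product number `s`, as a polynomial -/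
noncomputable def Circ.rightPoly (C : Circ F V N) (s : Fin N) : MvPolynomial V F :=
  (C.right s).poly fun t : Fin s => C.prod t

/-- the polynomial of a linear combination of `1`, the variables and all products of the circuit -/
noncomputable def Circ.eval (C : Circ F V N) (f : Form F V N) : MvPolynomial V F :=
  f.poly fun t : Fin N => C.prod t

/-- The product number `t` occurs (with a nonzero coefficient) in a factor of the product number
`s`. -/
def Circ.Feeds (C : Circ F V N) (t s : Fin N) : Prop :=
  ∃ h : (t : ℕ) < s, (C.left s).b ⟨t, h⟩ ≠ 0 ∨ (C.right s).b ⟨t, h⟩ ≠ 0

/-- The product number `t` is used for the linear combination `f` (of products of the circuit):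
there is a path from it to a product which occurs in `f`. -/
def Circ.Used (C : Circ F V N) (t : Fin N) (f : Form F V N) : Prop :=
  ∃ s, f.b s ≠ 0 ∧ Relation.ReflTransGen C.Feeds t s

/-- The product number `t` reads the variable `x`: the variable occurs in (at least) one of its two
factors, which are polynomials. -/
def Circ.Reads (C : Circ F V N) (t : Fin N) (x : V) : Prop :=
  x ∈ (C.leftPoly t).vars ∨ x ∈ (C.rightPoly t).vars

end

section

variable {F : Type*} [Field F] {m N : ℕ}

/-- The circuit multiplies two generic `m × m` matrices `A`, `B`: the linear combination `out i j`
gives the entry of `A B` in row `i` and column `j`. -/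
def Multiplies (C : Circ F (Vars m) N) (out : Fin m → Fin m → Form F (Vars m) N) : Prop :=
  ∀ i j, C.eval (out i j) = Pool.Agent.H88R3.MM.entry F m i j

open Classical in
/-- The rows which pass through the product number `t`: the indices `i` such that the product reads
an entry of row `i` of `A` and is used for an entry of row `i` of `A B`. -/
noncomputable def rowsThrough (C : Circ F (Vars m) N) (out : Fin m → Fin m → Form F (Vars m) N)
    (t : Fin N) : Finset (Fin m) :=
  Finset.univ.filter fun i => (∃ k, C.Reads t (Sum.inl (i, k))) ∧ ∃ j, C.Used t (out i j)

open Classical in
/-- The columns which pass through the product number `t`: the indices `j` such that the product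
reads an entry of column `j` of `B` and is used for an entry of column `j` of `A B`. -/
noncomputable def colsThrough (C : Circ F (Vars m) N) (out : Fin m → Fin m → Form F (Vars m) N)
    (t : Fin N) : Finset (Fin m) :=
  Finset.univ.filter fun j => (∃ k, C.Reads t (Sum.inr (k, j))) ∧ ∃ i, C.Used t (out i j)

open Classical in
/-- The rows of `A` which are read for row `i` of `A B`: the indices `i'` such that a product which
is used for an entry of row `i` of `A B` reads an entry of row `i'` of `A`. -/
noncomputable def rowsRead (C : Circ F (Vars m) N) (out : Fin m → Fin m → Form F (Vars m) N)
    (i : Fin m) : Finset (Fin m) :=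
  Finset.univ.filter fun i' => ∃ j t k, C.Used t (out i j) ∧ C.Reads t (Sum.inl (i', k))

open Classical in
/-- The columns of `B` which are read for column `j` of `A B`: the indices `j'` such that a product
which is used for an entry of column `j` of `A B` reads an entry of column `j'` of `B`. -/
noncomputable def colsRead (C : Circ F (Vars m) N) (out : Fin m → Fin m → Form F (Vars m) N)
    (j : Fin m) : Finset (Fin m) :=
  Finset.univ.filter fun j' => ∃ i t k, C.Used t (out i j) ∧ C.Reads t (Sum.inr (k, j'))

open Classical in
/-- The inner indices of a polynomial: the indices `k` such that a variable `a_ik` (an entry of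
column `k` of `A`) or `b_kj` (an entry of row `k` of `B`) occurs in the polynomial. -/
noncomputable def inner (P : MvPolynomial (Vars m) F) : Finset (Fin m) :=
  Finset.univ.filter fun k => (∃ i, Sum.inl (i, k) ∈ P.vars) ∨ ∃ j, Sum.inr (k, j) ∈ P.vars

end

end Pool.Agent.Y624.Mix
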