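import Pool.Agent.Y624.MixDefs
import Pool.Agent.W946.KosCirc

/-!
# Index mixing in circuits for matrix multiplication: lower bounds
-/

set_option autoImplicit false

namespace Pool.Agent.Y624.Mix

open Finset Pool.Agent.H88R3.MM Pool.Agent.W946.Kos
open Relation (ReflTransGen)

section poly

variable {F V : Type*} [Field F] [Fintype V] {N : ℕ}

theorem D2_C_mul {V : Type*} (x y : V) (a : F) (P : MvPolynomial V F) :
    D2 x y (MvPolynomial.C a * P) = a * D2 x y P := by
  rw [D2_mul, D2_C, D1_C, D1_C, MvPolynomial.constantCoeff_C]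
  ring

theorem D2_form {n : ℕ} (x y : V) (f : Form F V n) (P : Fin n → MvPolynomial V F) :
    D2 x y (f.poly P) = ∑ t, f.b t * D2 x y (P t) := by
  unfold Form.poly
  rw [D2_add, D2_add, D2_C, D2_sum, D2_sum]
  simp only [D2_C_mul, D2_X, mul_zero, sum_const_zero, zero_add]

theorem D1_mem {V : Type*} {x : V} {P : MvPolynomial V F} (h : D1 x P ≠ 0) : x ∈ P.vars := by
  by_contra hx
  apply h
  unfold D1
  rw [MvPolynomial.pderiv_eq_zero_of_notMem_vars hx, map_zero]

theorem prod_eq (C : Circ F V N) (s : Fin N) : C.prod s = C.leftPoly s * C.rightPoly s := by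
  conv_lhs => rw [Circ.prod]
  rw [dif_pos s.2]
  rfl

open Classical in
theorem exists_comb (C : Circ F V N) (s : ℕ) (hs : s < N) : ∃ c : Fin N → F,
    (∀ x y : V, D2 x y (C.prod s) = ∑ g, c g *
      (D1 x (C.leftPoly g) * D1 y (C.rightPoly g) +
        D1 y (C.leftPoly g) * D1 x (C.rightPoly g))) ∧
    ∀ g, c g ≠ 0 → ReflTransGen C.Feeds g ⟨s, hs⟩ := by
  induction s using Nat.strong_induction_on with
  | _ s ih =>
    have ih' : ∀ t : Fin s, ∃ c : Fin N → F,
        (∀ x y : V, D2 x y (C.prod t) = ∑ g, c g *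
          (D1 x (C.leftPoly g) * D1 y (C.rightPoly g) +
            D1 y (C.leftPoly g) * D1 x (C.rightPoly g))) ∧
        ∀ g, c g ≠ 0 → ReflTransGen C.Feeds g ⟨t, t.2.trans hs⟩ := fun t => ih t t.2 _
    choose c hc1 hc2 using ih'
    set l := MvPolynomial.constantCoeff (C.leftPoly ⟨s, hs⟩) with hl
    set r := MvPolynomial.constantCoeff (C.rightPoly ⟨s, hs⟩) with hr
    refine ⟨fun g => (l * ∑ t, (C.right ⟨s, hs⟩).b t * c t g) +
      (r * ∑ t, (C.left ⟨s, hs⟩).b t * c t g) + (if g = ⟨s, hs⟩ then 1 else 0), ?_, ?_⟩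
    · intro x y
      have h1 := prod_eq C ⟨s, hs⟩
      simp only at h1
      rw [h1, D2_mul]
      have h2 : D2 x y (C.leftPoly ⟨s, hs⟩) = ∑ t, (C.left ⟨s, hs⟩).b t * D2 x y (C.prod t) :=
        D2_form x y _ _
      have h3 : D2 x y (C.rightPoly ⟨s, hs⟩) = ∑ t, (C.right ⟨s, hs⟩).b t * D2 x y (C.prod t) :=
        D2_form x y _ _
      rw [h2, h3]
      simp only [hc1, add_mul, sum_add_distrib, ite_mul, one_mul, zero_mul,
        Finset.sum_ite_eq', Finset.mem_univ, if_true]
      have h4 : ∀ (z : F) (b : Fin s → F),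
          z * ∑ t, b t * ∑ g, c t g * (D1 x (C.leftPoly g) * D1 y (C.rightPoly g) +
            D1 y (C.leftPoly g) * D1 x (C.rightPoly g)) =
          ∑ g, (z * ∑ t, b t * c t g) * (D1 x (C.leftPoly g) * D1 y (C.rightPoly g) +
            D1 y (C.leftPoly g) * D1 x (C.rightPoly g)) := by
        intro z b
        rw [mul_sum]
        simp only [mul_sum, sum_mul]
        rw [sum_comm]
        exact sum_congr rfl fun g _ => sum_congr rfl fun t _ => by ring
      rw [← hl, ← hr, h4, h4]
    · intro g hg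
      by_cases h1 : g = ⟨s, hs⟩
      · rw [h1]
      · beta_reduce at hg
        rw [if_neg h1, add_zero] at hg
        have h2 : (∃ t, (C.right ⟨s, hs⟩).b t * c t g ≠ 0) ∨
            ∃ t, (C.left ⟨s, hs⟩).b t * c t g ≠ 0 := by
          by_contra hcon
          push Not at hcon
          apply hg
          rw [sum_eq_zero fun t _ => hcon.1 t, sum_eq_zero fun t _ => hcon.2 t]
          ring
        rcases h2 with ⟨t, ht⟩ | ⟨t, ht⟩
        · exact (hc2 t g (right_ne_zero_of_mul ht)).tail
            ⟨t.2, Or.inr (left_ne_zero_of_mul ht)⟩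
        · exact (hc2 t g (right_ne_zero_of_mul ht)).tail
            ⟨t.2, Or.inl (left_ne_zero_of_mul ht)⟩

open Classical in
theorem exists_comb_form (C : Circ F V N) (f : Form F V N) : ∃ c : Fin N → F,
    (∀ x y : V, D2 x y (C.eval f) = ∑ g, c g *
      (D1 x (C.leftPoly g) * D1 y (C.rightPoly g) +
        D1 y (C.leftPoly g) * D1 x (C.rightPoly g))) ∧
    ∀ g, c g ≠ 0 → C.Used g f := by
  have h0 : ∀ t : Fin N, ∃ c : Fin N → F,
        (∀ x y : V, D2 x y (C.prod t) = ∑ g, c g *
          (D1 x (C.leftPoly g) * D1 y (C.rightPoly g) +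
            D1 y (C.leftPoly g) * D1 x (C.rightPoly g))) ∧
        ∀ g, c g ≠ 0 → ReflTransGen C.Feeds g t := fun t => exists_comb C t t.2
  choose c hc1 hc2 using h0
  refine ⟨fun g => ∑ t, f.b t * c t g, ?_, ?_⟩
  · intro x y
    have h2 : D2 x y (C.eval f) = ∑ t, f.b t * D2 x y (C.prod t) := D2_form x y _ _
    rw [h2]
    simp only [hc1, mul_sum, sum_mul]
    rw [sum_comm]
    exact sum_congr rfl fun g _ => sum_congr rfl fun t _ => by ring
  · intro g hg
    obtain ⟨t, -, ht⟩ := Finset.exists_ne_zero_of_sum_ne_zero hg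
    exact ⟨t, left_ne_zero_of_mul ht, hc2 t g (right_ne_zero_of_mul ht)⟩

end poly

section abstract

variable {F : Type*} [Field F] {m : ℕ} {G : Type*} [Fintype G]

/-- the bilinear parts of the entries of the product -/
theorem D2_entry' (i j : Fin m) (i0 k0 k1 j1 : Fin m) :
    D2 (Sum.inl (i0, k0)) (Sum.inr (k1, j1)) (entry F m i j) =
      if i = i0 ∧ j = j1 ∧ k0 = k1 then 1 else 0 := by
  rw [D2_entry]
  simp only [symM, Matrix.of_apply, Matrix.single_apply]
  by_cases h1 : k0 = k1 <;> by_cases h2 : i = i0 <;> by_cases h3 : j = j1 <;> simp [h1, h2, h3]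

/-- A representation of the bilinear parts of the entries of the product by products of linear
parts. -/
def Rep (c : Fin m → Fin m → G → F) (l r : G → Vars m → F) : Prop :=
  ∀ i j i0 k0 k1 j1, (if i = i0 ∧ j = j1 ∧ k0 = k1 then (1 : F) else 0) =
    ∑ g, c i j g * (l g (Sum.inl (i0, k0)) * r g (Sum.inr (k1, j1)) +
      l g (Sum.inr (k1, j1)) * r g (Sum.inl (i0, k0)))

variable {c : Fin m → Fin m → G → F} {l r : G → Vars m → F}

/-- a linear form in the entries `(k, j)` of `B` with `k ∈ E`, `j ∈ P` -/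
private noncomputable def phi (l r : G → Vars m → F) (E P : Finset (Fin m)) (G' : Finset G) :
    (E × P → F) →ₗ[F] (G' × Bool → F) where
  toFun Y := fun g => ∑ z : E × P, Y z * (if g.2 then l g.1 (Sum.inr (z.1, z.2)) else
    r g.1 (Sum.inr (z.1, z.2)))
  map_add' Y Z := by
    funext g
    simp only [Pi.add_apply, add_mul, sum_add_distrib]
  map_smul' a Y := by
    funext g
    simp only [Pi.smul_apply, smul_eq_mul, RingHom.id_apply, mul_sum, mul_assoc]

open Classical in
/-- The products which are alive for row `i`. -/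
theorem row_bound (h : Rep c l r) (i : Fin m) (E P : Finset (Fin m)) (G' : Finset G)
    (hG : ∀ g, g ∉ G' → ∀ j ∈ P, ∀ k ∈ E, c i j g = 0 ∨
      (l g (Sum.inl (i, k)) = 0 ∧ r g (Sum.inl (i, k)) = 0)) :
    E.card * P.card ≤ 2 * G'.card := by
  have hinj : Function.Injective (phi l r E P G') := by
    rw [← LinearMap.ker_eq_bot, LinearMap.ker_eq_bot']
    intro Y hY
    have hY' : ∀ g ∈ G', (∑ z : E × P, Y z * l g (Sum.inr (z.1, z.2)) = 0) ∧
        ∑ z : E × P, Y z * r g (Sum.inr (z.1, z.2)) = 0 := by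
      intro g hg
      have h1 := congrFun hY (⟨g, hg⟩, true)
      have h2 := congrFun hY (⟨g, hg⟩, false)
      simp only [phi, LinearMap.coe_mk, AddHom.coe_mk, if_true, Bool.false_eq_true, if_false,
        Pi.zero_apply] at h1 h2
      exact ⟨h1, h2⟩
    funext z0
    obtain ⟨⟨k0, hk0⟩, ⟨j0, hj0⟩⟩ := z0
    have h1 : Y (⟨k0, hk0⟩, ⟨j0, hj0⟩) = ∑ z : E × P, Y z *
        ∑ g, c i j0 g * (l g (Sum.inl (i, k0)) * r g (Sum.inr ((z.1 : Fin m), (z.2 : Fin m))) +
          l g (Sum.inr ((z.1 : Fin m), (z.2 : Fin m))) * r g (Sum.inl (i, k0))) := by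
      rw [Finset.sum_eq_single (⟨k0, hk0⟩, ⟨j0, hj0⟩)]
      · rw [← h]
        simp
      · rintro ⟨⟨k, hk⟩, ⟨j, hj⟩⟩ - hne
        rw [← h, if_neg, mul_zero]
        rintro ⟨-, h2, h3⟩
        exact hne (by simp only at h2 h3; subst h2; subst h3; rfl)
      · intro hc
        exact absurd (mem_univ _) hc
    rw [h1]
    simp only [mul_sum]
    rw [sum_comm]
    refine sum_eq_zero fun g _ => ?_
    have h2 : ∑ z : E × P, Y z * (c i j0 g * (l g (Sum.inl (i, k0)) *
        r g (Sum.inr ((z.1 : Fin m), (z.2 : Fin m))) +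
        l g (Sum.inr ((z.1 : Fin m), (z.2 : Fin m))) * r g (Sum.inl (i, k0)))) =
        c i j0 g * (l g (Sum.inl (i, k0)) * ∑ z : E × P, Y z * r g (Sum.inr (z.1, z.2)) +
          r g (Sum.inl (i, k0)) * ∑ z : E × P, Y z * l g (Sum.inr (z.1, z.2))) := by
      rw [mul_sum, mul_sum, ← sum_add_distrib, mul_sum]
      exact sum_congr rfl fun z _ => by ring
    rw [h2]
    by_cases hg : g ∈ G'
    · rw [(hY' g hg).1, (hY' g hg).2]
      ring
    · rcases hG g hg j0 hj0 k0 hk0 with h3 | ⟨h3, h4⟩
      · rw [h3, zero_mul]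
      · rw [h3, h4]
        ring
  have h1 := LinearMap.finrank_le_finrank_of_injective hinj
  rw [Module.finrank_fintype_fun_eq_card, Module.finrank_fintype_fun_eq_card] at h1
  simp only [Fintype.card_prod, Fintype.card_coe, Fintype.card_bool] at h1
  linarith

omit [Fintype G] in
/-- exchange of the two matrices -/
private def tr (x : Vars m) : Vars m :=
  match x with
  | .inl (i, k) => .inr (k, i)
  | .inr (k, j) => .inl (j, k)

theorem Rep.tr (h : Rep c l r) :
    Rep (fun i j g => c j i g) (fun g x => l g (Mix.tr x)) (fun g x => r g (Mix.tr x)) := by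
  intro i j i0 k0 k1 j1
  have h1 := h j i j1 k1 k0 i0
  have h2 : (if i = i0 ∧ j = j1 ∧ k0 = k1 then (1 : F) else 0) =
      if j = j1 ∧ i = i0 ∧ k1 = k0 then 1 else 0 := by
    by_cases ha : i = i0 <;> by_cases hb : j = j1 <;> by_cases hc : k0 = k1 <;>
      simp [ha, hb, hc, eq_comm]
  rw [h2, h1]
  refine sum_congr rfl fun g _ => ?_
  simp only [Mix.tr]
  ring

open Classical in
/-- The products which are alive for column `j`. -/
theorem col_bound (h : Rep c l r) (j : Fin m) (E P : Finset (Fin m)) (G' : Finset G)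
    (hG : ∀ g, g ∉ G' → ∀ i ∈ P, ∀ k ∈ E, c i j g = 0 ∨
      (l g (Sum.inr (k, j)) = 0 ∧ r g (Sum.inr (k, j)) = 0)) :
    E.card * P.card ≤ 2 * G'.card :=
  row_bound h.tr j E P G' fun g hg i hi k hk => hG g hg i hi k hk

/-- a combination of the outputs -/
private noncomputable def psi (c : Fin m → Fin m → G → F) (G' : Finset G) :
    (Fin m × Fin m → F) →ₗ[F] (G' → F) where
  toFun t := fun g => ∑ z : Fin m × Fin m, t z * c z.1 z.2 g
  map_add' Y Z := by
    funext g
    simp only [Pi.add_apply, add_mul, sum_add_distrib]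
  map_smul' a Y := by
    funext g
    simp only [Pi.smul_apply, smul_eq_mul, RingHom.id_apply, mul_sum, mul_assoc]

open Classical in
/-- The products which are alive for the inner index `k`. -/
theorem inner_bound (h : Rep c l r) (k : Fin m) (G' : Finset G)
    (hG : ∀ g, g ∉ G' →
      ((∀ i, l g (Sum.inl (i, k)) = 0) ∧ ∀ j, l g (Sum.inr (k, j)) = 0) ∨
      ((∀ i, r g (Sum.inl (i, k)) = 0) ∧ ∀ j, r g (Sum.inr (k, j)) = 0)) :
    m ^ 2 ≤ G'.card := by
  have hinj : Function.Injective (psi c G') := by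
    rw [← LinearMap.ker_eq_bot, LinearMap.ker_eq_bot']
    intro t ht
    have ht' : ∀ g ∈ G', ∑ z : Fin m × Fin m, t z * c z.1 z.2 g = 0 := fun g hg =>
      congrFun ht ⟨g, hg⟩
    funext z0
    obtain ⟨i0, j0⟩ := z0
    have h1 : t (i0, j0) = ∑ z : Fin m × Fin m, t z *
        ∑ g, c z.1 z.2 g * (l g (Sum.inl (i0, k)) * r g (Sum.inr (k, j0)) +
          l g (Sum.inr (k, j0)) * r g (Sum.inl (i0, k))) := by
      rw [Finset.sum_eq_single (i0, j0)]
      · rw [← h]
        simp
      · rintro ⟨i, j⟩ - hne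
        rw [← h, if_neg, mul_zero]
        rintro ⟨h2, h3, -⟩
        exact hne (by simp only at h2 h3; subst h2; subst h3; rfl)
      · intro hc
        exact absurd (mem_univ _) hc
    rw [h1]
    simp only [mul_sum]
    rw [sum_comm]
    refine sum_eq_zero fun g _ => ?_
    have h2 : ∑ z : Fin m × Fin m, t z * (c z.1 z.2 g * (l g (Sum.inl (i0, k)) *
        r g (Sum.inr (k, j0)) + l g (Sum.inr (k, j0)) * r g (Sum.inl (i0, k)))) =
        (∑ z : Fin m × Fin m, t z * c z.1 z.2 g) * (l g (Sum.inl (i0, k)) *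
        r g (Sum.inr (k, j0)) + l g (Sum.inr (k, j0)) * r g (Sum.inl (i0, k))) := by
      rw [sum_mul]
      exact sum_congr rfl fun z _ => by ring
    rw [h2]
    by_cases hg : g ∈ G'
    · rw [ht' g hg, zero_mul]
    · rcases hG g hg with ⟨h3, h4⟩ | ⟨h3, h4⟩
      · rw [h3, h4]
        ring
      · rw [h3, h4]
        ring
  have h1 := LinearMap.finrank_le_finrank_of_injective hinj
  rw [Module.finrank_fintype_fun_eq_card, Module.finrank_fintype_fun_eq_card] at h1
  simp only [Fintype.card_prod, Fintype.card_coe, Fintype.card_fin] at h1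
  rw [sq]
  exact h1

end abstract

section coloring

open Classical in
theorem card_colorings {m q : ℕ} {i i' : Fin m} (h : i ≠ i') :
    q * (univ.filter fun χ : Fin m → Fin q => χ i = χ i').card = q ^ m := by
  have e : {χ : Fin m → Fin q // χ i = χ i'} × Fin q ≃ (Fin m → Fin q) :=
    { toFun := fun p => Function.update p.1.1 i p.2
      invFun := fun f => (⟨Function.update f i (f i'), by
        rw [Function.update_self, Function.update_of_ne h.symm]⟩, f i)
      left_inv := by
        rintro ⟨⟨χ, hχ⟩, d⟩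
        simp only [Function.update_of_ne h.symm, Function.update_idem, Function.update_self,
          Prod.mk.injEq, and_true, Subtype.mk.injEq]
        rw [← hχ, Function.update_eq_self]
      right_inv := by
        intro f
        simp only [Function.update_idem, Function.update_eq_self] }
  have h1 := Fintype.card_congr e
  rw [Fintype.card_prod, Fintype.card_subtype, Fintype.card_fin, Fintype.card_fun,
    Fintype.card_fin, Fintype.card_fin] at h1
  rw [mul_comm]
  exact h1

open Classical in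
/-- A colouring with few monochromatic pairs. -/
theorem exists_coloring {m q : ℕ} (hq : 0 < q) (v : Fin m → Fin m → ℕ) :
    ∃ χ : Fin m → Fin q, q * ∑ i, ∑ i', (if i ≠ i' ∧ χ i = χ i' then v i i' else 0) ≤
      ∑ i, ∑ i', if i ≠ i' then v i i' else 0 := by
  have : Nonempty (Fin m → Fin q) := ⟨fun _ => ⟨0, hq⟩⟩
  have hsum : ∑ χ : Fin m → Fin q,
      q * ∑ i, ∑ i', (if i ≠ i' ∧ χ i = χ i' then v i i' else 0) ≤
      ∑ _χ : Fin m → Fin q, ∑ i, ∑ i', if i ≠ i' then v i i' else 0 := by
    rw [sum_const, card_univ, Fintype.card_fun, Fintype.card_fin, Fintype.card_fin, smul_eq_mul,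
      ← mul_sum, sum_comm, mul_sum, mul_sum]
    refine sum_le_sum fun i _ => ?_
    rw [sum_comm, mul_sum, mul_sum]
    refine sum_le_sum fun i' _ => ?_
    by_cases h : i = i'
    · simp [h]
    · simp only [ne_eq, h, not_false_eq_true, true_and, if_true]
      rw [← sum_filter, sum_const, smul_eq_mul, ← mul_assoc, card_colorings h]
  obtain ⟨χ, -, hχ⟩ := Finset.exists_le_of_sum_le univ_nonempty hsum
  exact ⟨χ, hχ⟩

end coloring

end Pool.Agent.Y624.Mix
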