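import Pool.Agent.Y624.MixLow

/-!
# Index mixing in circuits for matrix multiplication: lower bounds, conclusion
-/

set_option autoImplicit false

namespace Pool.Agent.Y624.Mix

open Finset Pool.Agent.H88R3.MM Pool.Agent.W946.Kos

section

variable {F : Type*} [Field F] {m : ℕ} {G : Type*} [Fintype G]
  {c : Fin m → Fin m → G → F} {l r : G → Vars m → F}

open Classical in
/-- The trade-off with a covering of the foreign pairs. -/
theorem cover_bound (h : Rep c l r) (X Y : Fin m → Fin m → Finset (Fin m))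
    (hXY : ∀ i j i' k g, i ≠ i' → c i j g ≠ 0 →
      (l g (Sum.inl (i', k)) ≠ 0 ∨ r g (Sum.inl (i', k)) ≠ 0) → j ∈ X i i' ∨ k ∈ Y i i') :
    m ^ 5 ≤ 4 * Fintype.card G *
      (m ^ 2 + 2 * ∑ i, ∑ i', if i ≠ i' then (X i i').card + (Y i i').card else 0) := by
  rcases Nat.eq_zero_or_pos m with rfl | hm
  · simp
  set V := ∑ i, ∑ i', if i ≠ i' then (X i i').card + (Y i i').card else 0 with hV
  set q := 2 * V / m ^ 2 + 1 with hq
  have hm2 : 0 < m ^ 2 := by positivity
  have hq1 : 2 * V < q * m ^ 2 := by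
    have := Nat.lt_div_mul_add (a := 2 * V) hm2
    rw [hq]
    linarith
  have hq2 : q * m ^ 2 ≤ 2 * V + m ^ 2 := by
    have := Nat.div_mul_le_self (2 * V) (m ^ 2)
    rw [hq]
    linarith
  obtain ⟨χ, hχ⟩ := exists_coloring (q := q) (Nat.succ_pos _)
    (fun i i' => (X i i').card + (Y i i').card)
  rw [← hV] at hχ
  set W := ∑ i, ∑ i', (if i ≠ i' ∧ χ i = χ i' then (X i i').card + (Y i i').card else 0)
    with hW
  let P : Fin m → Finset (Fin m) := fun i =>
    univ.filter fun j => ∀ i', i ≠ i' → χ i = χ i' → j ∉ X i i'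
  let E : Fin m → Finset (Fin m) := fun i =>
    univ.filter fun k => ∀ i', i ≠ i' → χ i = χ i' → k ∉ Y i' i
  let S : Fin m → Finset G := fun i => univ.filter fun g => (∃ j ∈ P i, c i j g ≠ 0) ∧
    ∃ k ∈ E i, l g (Sum.inl (i, k)) ≠ 0 ∨ r g (Sum.inl (i, k)) ≠ 0
  have hS : ∀ i, (E i).card * (P i).card ≤ 2 * (S i).card := by
    intro i
    refine row_bound h i (E i) (P i) (S i) fun g hg j hj k hk => ?_
    by_contra hcon
    apply hg
    push Not at hcon
    refine mem_filter.2 ⟨mem_univ _, ⟨j, hj, hcon.1⟩, k, hk, ?_⟩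
    by_contra h2
    push Not at h2
    exact hcon.2 h2.1 h2.2
  have hdisj : ∀ i i', i ≠ i' → χ i = χ i' → Disjoint (S i) (S i') := by
    intro i i' hne hχi
    rw [Finset.disjoint_left]
    intro g hg hg'
    obtain ⟨-, ⟨j, hj, hcj⟩, -⟩ := mem_filter.1 hg
    obtain ⟨-, -, k, hk, hlr⟩ := mem_filter.1 hg'
    rcases hXY i j i' k g hne hcj hlr with h1 | h1
    · exact (mem_filter.1 hj).2 i' hne hχi h1
    · exact (mem_filter.1 hk).2 i (Ne.symm hne) hχi.symm h1
  have hsumS : ∑ i, (S i).card ≤ q * Fintype.card G := by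
    have h1 : ∑ i, (S i).card = ∑ a : Fin q, ∑ i ∈ univ.filter (fun i => χ i = a), (S i).card := by
      exact (Finset.sum_fiberwise univ χ fun i => (S i).card).symm
    rw [h1]
    refine (sum_le_card_nsmul univ _ (Fintype.card G) fun a _ => ?_).trans
      (le_of_eq (by rw [card_univ, Fintype.card_fin, smul_eq_mul]))
    rw [← card_biUnion]
    · exact card_le_univ _
    · intro i hi i' hi' hne
      rw [mem_coe, mem_filter] at hi hi'
      exact hdisj i i' hne (hi.2.trans hi'.2.symm)
  set x : Fin m → ℕ := fun i => ∑ i', if i ≠ i' ∧ χ i = χ i' then (X i i').card else 0 with hx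
  set y : Fin m → ℕ := fun i => ∑ i', if i ≠ i' ∧ χ i = χ i' then (Y i' i).card else 0 with hy
  have hP : ∀ i, m ≤ (P i).card + x i := by
    intro i
    have h1 : (univ \ P i) ⊆ univ.biUnion fun i' : Fin m =>
        if i ≠ i' ∧ χ i = χ i' then X i i' else ∅ := by
      intro j hj
      rw [mem_sdiff] at hj
      have h2 : ∃ i', i ≠ i' ∧ χ i = χ i' ∧ j ∈ X i i' := by
        by_contra hcon
        push Not at hcon
        exact hj.2 (mem_filter.2 ⟨mem_univ _, hcon⟩)
      obtain ⟨i', h3, h4, h5⟩ := h2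
      rw [mem_biUnion]
      exact ⟨i', mem_univ _, by rw [if_pos ⟨h3, h4⟩]; exact h5⟩
    have h2 := (card_le_card h1).trans card_biUnion_le
    have h3 : ∀ i' : Fin m, (if i ≠ i' ∧ χ i = χ i' then X i i' else ∅).card =
        if i ≠ i' ∧ χ i = χ i' then (X i i').card else 0 := by
      intro i'
      split_ifs <;> simp
    simp only [h3] at h2
    have h4 := card_sdiff_add_card_eq_card (subset_univ (P i))
    rw [card_univ, Fintype.card_fin] at h4
    have h5 : (univ \ P i).card ≤ x i := h2
    omega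
  have hE : ∀ i, m ≤ (E i).card + y i := by
    intro i
    have h1 : (univ \ E i) ⊆ univ.biUnion fun i' : Fin m =>
        if i ≠ i' ∧ χ i = χ i' then Y i' i else ∅ := by
      intro j hj
      rw [mem_sdiff] at hj
      have h2 : ∃ i', i ≠ i' ∧ χ i = χ i' ∧ j ∈ Y i' i := by
        by_contra hcon
        push Not at hcon
        exact hj.2 (mem_filter.2 ⟨mem_univ _, hcon⟩)
      obtain ⟨i', h3, h4, h5⟩ := h2
      rw [mem_biUnion]
      exact ⟨i', mem_univ _, by rw [if_pos ⟨h3, h4⟩]; exact h5⟩
    have h2 := (card_le_card h1).trans card_biUnion_le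
    have h3 : ∀ i' : Fin m, (if i ≠ i' ∧ χ i = χ i' then Y i' i else ∅).card =
        if i ≠ i' ∧ χ i = χ i' then (Y i' i).card else 0 := by
      intro i'
      split_ifs <;> simp
    simp only [h3] at h2
    have h4 := card_sdiff_add_card_eq_card (subset_univ (E i))
    rw [card_univ, Fintype.card_fin] at h4
    have h5 : (univ \ E i).card ≤ y i := h2
    omega
  have hxy : ∑ i, (x i + y i) = W := by
    have h1 : ∑ i, y i = ∑ i, ∑ i', if i ≠ i' ∧ χ i = χ i' then (Y i i').card else 0 := by
      rw [hy, sum_comm]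
      refine sum_congr rfl fun i _ => sum_congr rfl fun i' _ => ?_
      by_cases h2 : i ≠ i' ∧ χ i = χ i'
      · rw [if_pos h2, if_pos ⟨h2.1.symm, h2.2.symm⟩]
      · rw [if_neg h2, if_neg fun h3 => h2 ⟨h3.1.symm, h3.2.symm⟩]
    rw [sum_add_distrib, h1, hx, ← sum_add_distrib, hW]
    refine sum_congr rfl fun i _ => ?_
    rw [← sum_add_distrib]
    refine sum_congr rfl fun i' _ => ?_
    split_ifs <;> simp
  have hmain : m ^ 3 ≤ 2 * q * Fintype.card G + m * W := by
    have h1 : ∀ i, m * m ≤ (E i).card * (P i).card + m * (x i + y i) := by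
      intro i
      have hPm : (P i).card ≤ m := by
        have := card_le_univ (P i)
        rwa [Fintype.card_fin] at this
      calc m * m ≤ m * ((P i).card + x i) := Nat.mul_le_mul_left _ (hP i)
        _ = m * (P i).card + m * x i := by ring
        _ ≤ ((E i).card + y i) * (P i).card + m * x i :=
            Nat.add_le_add_right (Nat.mul_le_mul_right _ (hE i)) _
        _ = (E i).card * (P i).card + y i * (P i).card + m * x i := by ring
        _ ≤ (E i).card * (P i).card + y i * m + m * x i := by gcongr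
        _ = _ := by ring
    calc m ^ 3 = ∑ _i : Fin m, m * m := by simp; ring
      _ ≤ ∑ i, ((E i).card * (P i).card + m * (x i + y i)) := sum_le_sum fun i _ => h1 i
      _ = ∑ i, (E i).card * (P i).card + m * ∑ i, (x i + y i) := by
          rw [sum_add_distrib, mul_sum]
      _ ≤ ∑ i, 2 * (S i).card + m * W := by
          rw [hxy]
          exact Nat.add_le_add_right (sum_le_sum fun i _ => hS i) _
      _ = 2 * ∑ i, (S i).card + m * W := by rw [← mul_sum]
      _ ≤ 2 * (q * Fintype.card G) + m * W := by gcongr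
      _ = _ := by ring
  have hqpos : 0 < q := Nat.succ_pos _
  have h3 : q * m ^ 3 ≤ 2 * q ^ 2 * Fintype.card G + m * V := by
    calc q * m ^ 3 ≤ q * (2 * q * Fintype.card G + m * W) := Nat.mul_le_mul_left _ hmain
      _ = 2 * q ^ 2 * Fintype.card G + m * (q * W) := by ring
      _ ≤ _ := by gcongr
  have h4 : 2 * (m * V) ≤ q * m ^ 3 := by
    calc 2 * (m * V) = m * (2 * V) := by ring
      _ ≤ m * (q * m ^ 2) := Nat.mul_le_mul_left _ hq1.le
      _ = _ := by ring
  have h5 : q * m ^ 3 ≤ q * (4 * q * Fintype.card G) := by nlinarith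
  have h6 : m ^ 3 ≤ 4 * q * Fintype.card G := Nat.le_of_mul_le_mul_left h5 hqpos
  calc m ^ 5 = m ^ 3 * m ^ 2 := by ring
    _ ≤ (4 * q * Fintype.card G) * m ^ 2 := Nat.mul_le_mul_right _ h6
    _ = 4 * Fintype.card G * (q * m ^ 2) := by ring
    _ ≤ 4 * Fintype.card G * (2 * V + m ^ 2) := Nat.mul_le_mul_left _ hq2
    _ = _ := by rw [Nat.add_comm]

end

section

variable {F : Type*} [Field F] {m N : ℕ}

/-- the linear parts of the factors -/
theorem exists_rep (C : Circ F (Vars m) N) (out : Fin m → Fin m → Form F (Vars m) N)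
    (hC : Multiplies C out) : ∃ c : Fin m → Fin m → Fin N → F,
      Rep c (fun g x => D1 x (C.leftPoly g)) (fun g x => D1 x (C.rightPoly g)) ∧
      ∀ i j g, c i j g ≠ 0 → C.Used g (out i j) := by
  have h0 : ∀ i j, ∃ c : Fin N → F,
      (∀ x y : Vars m, D2 x y (C.eval (out i j)) = ∑ g, c g *
        (D1 x (C.leftPoly g) * D1 y (C.rightPoly g) +
          D1 y (C.leftPoly g) * D1 x (C.rightPoly g))) ∧
      ∀ g, c g ≠ 0 → C.Used g (out i j) := fun i j => exists_comb_form C (out i j)
  choose c hc1 hc2 using h0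
  refine ⟨c, ?_, hc2⟩
  intro i j i0 k0 k1 j1
  rw [← D2_entry', ← hC i j, hc1]

theorem reads_of_D1 {C : Circ F (Vars m) N} {t : Fin N} {x : Vars m}
    (h : D1 x (C.leftPoly t) ≠ 0 ∨ D1 x (C.rightPoly t) ≠ 0) : C.Reads t x :=
  h.imp D1_mem D1_mem

open Classical in
/-- Rows pass through products. -/
theorem rows_bound (C : Circ F (Vars m) N) (out : Fin m → Fin m → Form F (Vars m) N)
    (hC : Multiplies C out) : m ^ 3 ≤ 2 * ∑ t, (rowsThrough C out t).card := by
  obtain ⟨c, hrep, hused⟩ := exists_rep C out hC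
  have h1 : ∀ i : Fin m, m * m ≤ 2 * (univ.filter fun t => i ∈ rowsThrough C out t).card := by
    intro i
    have := row_bound hrep i univ univ (univ.filter fun t => i ∈ rowsThrough C out t)
      fun g hg j _ k _ => by
        by_contra hcon
        apply hg
        push Not at hcon
        refine mem_filter.2 ⟨mem_univ _, mem_filter.2 ⟨mem_univ _, ⟨k, reads_of_D1 ?_⟩, j,
          hused i j g hcon.1⟩⟩
        by_contra h2
        push Not at h2
        exact hcon.2 h2.1 h2.2
    simpa using this
  calc m ^ 3 = ∑ _i : Fin m, m * m := by simp; ring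
    _ ≤ ∑ i : Fin m, 2 * (univ.filter fun t => i ∈ rowsThrough C out t).card :=
        sum_le_sum fun i _ => h1 i
    _ = 2 * ∑ i : Fin m, ∑ t, (if i ∈ rowsThrough C out t then 1 else 0) := by
        rw [mul_sum]
        refine sum_congr rfl fun i _ => ?_
        rw [card_filter]
    _ = _ := by
        rw [sum_comm]
        congr 1
        refine sum_congr rfl fun t _ => ?_
        rw [← card_filter, filter_univ_mem]

open Classical in
/-- Columns pass through products. -/
theorem cols_bound (C : Circ F (Vars m) N) (out : Fin m → Fin m → Form F (Vars m) N)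
    (hC : Multiplies C out) : m ^ 3 ≤ 2 * ∑ t, (colsThrough C out t).card := by
  obtain ⟨c, hrep, hused⟩ := exists_rep C out hC
  have h1 : ∀ j : Fin m, m * m ≤ 2 * (univ.filter fun t => j ∈ colsThrough C out t).card := by
    intro j
    have := col_bound hrep j univ univ (univ.filter fun t => j ∈ colsThrough C out t)
      fun g hg i _ k _ => by
        by_contra hcon
        apply hg
        push Not at hcon
        refine mem_filter.2 ⟨mem_univ _, mem_filter.2 ⟨mem_univ _, ⟨k, reads_of_D1 ?_⟩, i,
          hused i j g hcon.1⟩⟩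
        by_contra h2
        push Not at h2
        exact hcon.2 h2.1 h2.2
    simpa using this
  calc m ^ 3 = ∑ _i : Fin m, m * m := by simp; ring
    _ ≤ ∑ i : Fin m, 2 * (univ.filter fun t => i ∈ colsThrough C out t).card :=
        sum_le_sum fun i _ => h1 i
    _ = 2 * ∑ i : Fin m, ∑ t, (if i ∈ colsThrough C out t then 1 else 0) := by
        rw [mul_sum]
        refine sum_congr rfl fun i _ => ?_
        rw [card_filter]
    _ = _ := by
        rw [sum_comm]
        congr 1
        refine sum_congr rfl fun t _ => ?_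
        rw [← card_filter, filter_univ_mem]

open Classical in
/-- Inner indices common to the two factors. -/
theorem inner_sum_bound (C : Circ F (Vars m) N) (out : Fin m → Fin m → Form F (Vars m) N)
    (hC : Multiplies C out) :
    m ^ 3 ≤ ∑ t, (inner (C.leftPoly t) ∩ inner (C.rightPoly t)).card := by
  obtain ⟨c, hrep, -⟩ := exists_rep C out hC
  have hin : ∀ (P : MvPolynomial (Vars m) F) (k : Fin m), k ∉ inner P →
      (∀ i, D1 (Sum.inl (i, k)) P = 0) ∧ ∀ j, D1 (Sum.inr (k, j)) P = 0 := by
    intro P k hk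
    have h1 : ¬ ((∃ i, Sum.inl (i, k) ∈ P.vars) ∨ ∃ j, Sum.inr (k, j) ∈ P.vars) := fun h =>
      hk (mem_filter.2 ⟨mem_univ _, h⟩)
    push Not at h1
    exact ⟨fun i => by by_contra h; exact h1.1 i (D1_mem h),
      fun j => by by_contra h; exact h1.2 j (D1_mem h)⟩
  have h1 : ∀ k : Fin m, m ^ 2 ≤
      (univ.filter fun t => k ∈ inner (C.leftPoly t) ∩ inner (C.rightPoly t)).card := by
    intro k
    refine inner_bound hrep k _ fun g hg => ?_
    have h2 : k ∉ inner (C.leftPoly g) ∨ k ∉ inner (C.rightPoly g) := by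
      by_contra hcon
      push Not at hcon
      exact hg (mem_filter.2 ⟨mem_univ _, mem_inter.2 hcon⟩)
    exact h2.imp (hin _ k) (hin _ k)
  calc m ^ 3 = ∑ _i : Fin m, m ^ 2 := by simp; ring
    _ ≤ ∑ k : Fin m,
        (univ.filter fun t => k ∈ inner (C.leftPoly t) ∩ inner (C.rightPoly t)).card :=
        sum_le_sum fun i _ => h1 i
    _ = ∑ k : Fin m, ∑ t, (if k ∈ inner (C.leftPoly t) ∩ inner (C.rightPoly t) then 1 else 0) := by
        refine sum_congr rfl fun i _ => ?_
        rw [card_filter]
    _ = _ := by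
        rw [sum_comm]
        refine sum_congr rfl fun t _ => ?_
        rw [← card_filter, filter_univ_mem]

open Classical in
/-- The trade-off for outputs which read few entries of other rows. -/
theorem foreign_bound (C : Circ F (Vars m) N) (out : Fin m → Fin m → Form F (Vars m) N)
    (hC : Multiplies C out) (X Y : Fin m → Fin m → Finset (Fin m))
    (hXY : ∀ i j i' k t, i ≠ i' → C.Used t (out i j) → C.Reads t (Sum.inl (i', k)) →
      j ∈ X i i' ∨ k ∈ Y i i') :
    m ^ 5 ≤ 4 * N *
      (m ^ 2 + 2 * ∑ i, ∑ i', if i ≠ i' then (X i i').card + (Y i i').card else 0) := by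
  obtain ⟨c, hrep, hused⟩ := exists_rep C out hC
  have := cover_bound hrep X Y fun i j i' k g hne hc hlr =>
    hXY i j i' k g hne (hused i j g hc) (reads_of_D1 hlr)
  rwa [Fintype.card_fin] at this

end

end Pool.Agent.Y624.Mix
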