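import Pool.Agent.Y624.MixUp
import Pool.Agent.Y624.MixMain
import Pool.Agent.Y640.RectMain

/-!
# Index mixing in circuits for matrix multiplication: the bounds are tight
-/

set_option autoImplicit false

namespace Pool.Agent.Y624.Mix

open Finset Pool.Agent.H88R3.MM Pool.Agent.W329.AR

section

variable {F : Type*} [Field F] {m : ℕ}

theorem MMT_rot {K : Type*} [CommRing K] {p q s r : ℕ} (h : MR K p q s r) : MR K q s p r := by
  refine (Rk.rot h).congr fun y z x => ?_
  simp only [MMT]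
  exact if_congr ⟨fun ⟨a, b, c⟩ => ⟨c.symm, a.symm, b⟩, fun ⟨a, b, c⟩ => ⟨b.symm, c, a.symm⟩⟩
    rfl rfl

/-- the block of an index -/
def inBlk (m s nb : ℕ) (b : Fin nb) (i : Fin m) : Prop := (i : ℕ) / s = b

theorem card_inBlk {m s nb : ℕ} (hs : 0 < s) (b : Fin nb)
    [Fintype {i : Fin m // inBlk m s nb b i}] :
    Fintype.card {i : Fin m // inBlk m s nb b i} ≤ s := by
  have hinj : Function.Injective (fun i : {i : Fin m // inBlk m s nb b i} =>
      (⟨(i.1 : ℕ) % s, Nat.mod_lt _ hs⟩ : Fin s)) := by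
    rintro ⟨i, hi⟩ ⟨j, hj⟩ hij
    simp only [Fin.mk.injEq] at hij
    unfold inBlk at hi hj
    have h1 := Nat.div_add_mod (i : ℕ) s
    have h2 := Nat.div_add_mod (j : ℕ) s
    rw [hi] at h1
    rw [hj] at h2
    exact Subtype.ext (Fin.ext (by rw [← h1, ← h2, hij]))
  have := Fintype.card_le_of_injective _ hinj
  rwa [Fintype.card_fin] at this

theorem exists_blk (m s : ℕ) (i : Fin m) : ∃! b : Fin (m / s + 1),
    inBlk m s (m / s + 1) b i := by
  refine ⟨⟨(i : ℕ) / s, Nat.lt_succ_of_le (Nat.div_le_div_right i.2.le)⟩, rfl, ?_⟩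
  intro b hb
  exact Fin.ext hb.symm

theorem numeric {m s d r : ℕ} (h : d * r ≤ (d + 10) * m ^ 2) (hs : (d + 10) * s ≤ m) :
    d * ((m / s + 1) * r * s) ≤ (d + 11) * m ^ 3 := by
  have h5 : (m / s + 1) * s ≤ m + s := by
    have := Nat.div_mul_le_self m s
    nlinarith
  calc d * ((m / s + 1) * r * s) = ((m / s + 1) * s) * (d * r) := by ring
    _ ≤ (m + s) * ((d + 10) * m ^ 2) := Nat.mul_le_mul h5 h
    _ = (d + 10) * m ^ 3 + ((d + 10) * s) * m ^ 2 := by ring
    _ ≤ (d + 10) * m ^ 3 + m * m ^ 2 := by gcongr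
    _ = _ := by ring

/-- Circuits in which few rows pass through every product. -/
theorem rows_up {s r : ℕ} (hs : 0 < s) (h : MR F m m s r) :
    ∃ (C : Circ F (Vars m) ((m / s + 1) * r))
    (out : Fin m → Fin m → Form F (Vars m) ((m / s + 1) * r)), Multiplies C out ∧
      (∀ t, (rowsThrough C out t).card ≤ s) ∧ ∀ i, (rowsRead C out i).card ≤ s := by
  classical
  have h0 := MMT_rot (MMT_rot h)
  obtain ⟨C, out, hC, ht⟩ := exists_circ (F := F) (m := m) (nb := m / s + 1)
    (r := r) (p := fun b i => inBlk m s _ b i) (q := fun _ _ => True)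
    (s := fun _ _ => True) (fun i k j => by
      obtain ⟨b, hb, hu⟩ := exists_blk m s i
      exact ⟨b, ⟨hb, trivial, trivial⟩, fun b' hb' => hu b' hb'.1⟩)
    (fun b => h0.types _ _ _ (card_inBlk hs b) (by simp) (by simp))
  have hread : ∀ t, ∃ b, (∀ i k, C.Reads t (Sum.inl (i, k)) → inBlk m s _ b i) ∧
      ∀ i j, C.Used t (out i j) → inBlk m s (m / s + 1) b i := by
    intro t
    obtain ⟨b, h1, h2, h3⟩ := ht t
    refine ⟨b, ?_, fun i j hu => (h3 i j hu).1⟩
    rintro i k (hr | hr)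
    · obtain ⟨i', k', he, hp, -⟩ := h1 _ hr
      cases he
      exact hp
    · obtain ⟨i', k', he, -⟩ := h2 _ hr
      cases he
  have hcard : ∀ (b : Fin (m / s + 1)) (S : Finset (Fin m)),
      (∀ i ∈ S, inBlk m s _ b i) → S.card ≤ s := by
    intro b S hS
    refine le_trans ?_ (card_inBlk (m := m) hs b)
    rw [Fintype.card_subtype]
    exact card_le_card fun i hi => mem_filter.2 ⟨mem_univ _, hS i hi⟩
  refine ⟨C, out, hC, fun t => ?_, fun i => ?_⟩
  · obtain ⟨b, h1, -⟩ := hread t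
    refine hcard b _ fun i hi => ?_
    obtain ⟨-, ⟨k, hk⟩, -⟩ := mem_filter.1 hi
    exact h1 i k hk
  · obtain ⟨b, hb, -⟩ := exists_blk m s i
    refine hcard b _ fun i' hi' => ?_
    obtain ⟨-, j, t, k, hu, hr⟩ := mem_filter.1 hi'
    obtain ⟨b', h1, h2⟩ := hread t
    have h3 : b' = b := Fin.ext ((h2 i j hu).symm.trans hb)
    rw [← h3]
    exact h1 i' k hr

/-- Circuits in which few columns pass through every product. -/
theorem cols_up {s r : ℕ} (hs : 0 < s) (h : MR F m m s r) :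
    ∃ (C : Circ F (Vars m) ((m / s + 1) * r))
    (out : Fin m → Fin m → Form F (Vars m) ((m / s + 1) * r)), Multiplies C out ∧
      (∀ t, (colsThrough C out t).card ≤ s) ∧ ∀ j, (colsRead C out j).card ≤ s := by
  classical
  obtain ⟨C, out, hC, ht⟩ := exists_circ (F := F) (m := m) (nb := m / s + 1)
    (r := r) (p := fun _ _ => True) (q := fun _ _ => True)
    (s := fun b i => inBlk m s _ b i) (fun i k j => by
      obtain ⟨b, hb, hu⟩ := exists_blk m s j
      exact ⟨b, ⟨trivial, trivial, hb⟩, fun b' hb' => hu b' hb'.2.2⟩)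
    (fun b => h.types _ _ _ (by simp) (by simp) (card_inBlk hs b))
  have hread : ∀ t, ∃ b, (∀ j k, C.Reads t (Sum.inr (k, j)) → inBlk m s _ b j) ∧
      ∀ i j, C.Used t (out i j) → inBlk m s (m / s + 1) b j := by
    intro t
    obtain ⟨b, h1, h2, h3⟩ := ht t
    refine ⟨b, ?_, fun i j hu => (h3 i j hu).2⟩
    rintro j k (hr | hr)
    · obtain ⟨i', k', he, -⟩ := h1 _ hr
      cases he
    · obtain ⟨k', j', he, -, hp⟩ := h2 _ hr
      cases he
      exact hp
  have hcard : ∀ (b : Fin (m / s + 1)) (S : Finset (Fin m)),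
      (∀ i ∈ S, inBlk m s _ b i) → S.card ≤ s := by
    intro b S hS
    refine le_trans ?_ (card_inBlk (m := m) hs b)
    rw [Fintype.card_subtype]
    exact card_le_card fun i hi => mem_filter.2 ⟨mem_univ _, hS i hi⟩
  refine ⟨C, out, hC, fun t => ?_, fun j => ?_⟩
  · obtain ⟨b, h1, -⟩ := hread t
    refine hcard b _ fun j hj => ?_
    obtain ⟨-, ⟨k, hk⟩, -⟩ := mem_filter.1 hj
    exact h1 j k hk
  · obtain ⟨b, hb, -⟩ := exists_blk m s j
    refine hcard b _ fun j' hj' => ?_
    obtain ⟨-, i, t, k, hu, hr⟩ := mem_filter.1 hj'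
    obtain ⟨b', h1, h2⟩ := hread t
    have h3 : b' = b := Fin.ext ((h2 i j hu).symm.trans hb)
    rw [← h3]
    exact h1 j' k hr

/-- Circuits in which all factors have few inner indices. -/
theorem inner_up {s r : ℕ} (hs : 0 < s) (h : MR F m m s r) :
    ∃ (C : Circ F (Vars m) ((m / s + 1) * r))
    (out : Fin m → Fin m → Form F (Vars m) ((m / s + 1) * r)), Multiplies C out ∧
      ∀ t, (inner (C.leftPoly t) ∪ inner (C.rightPoly t)).card ≤ s := by
  classical
  have h0 := MMT_rot h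
  obtain ⟨C, out, hC, ht⟩ := exists_circ (F := F) (m := m) (nb := m / s + 1)
    (r := r) (p := fun _ _ => True) (q := fun b i => inBlk m s _ b i)
    (s := fun _ _ => True) (fun i k j => by
      obtain ⟨b, hb, hu⟩ := exists_blk m s k
      exact ⟨b, ⟨trivial, hb, trivial⟩, fun b' hb' => hu b' hb'.2.1⟩)
    (fun b => h0.types _ _ _ (by simp) (card_inBlk hs b) (by simp))
  refine ⟨C, out, hC, fun t => ?_⟩
  obtain ⟨b, h1, h2, h3⟩ := ht t
  refine le_trans ?_ (card_inBlk (m := m) hs b)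
  rw [Fintype.card_subtype]
  refine card_le_card fun k hk => mem_filter.2 ⟨mem_univ _, ?_⟩
  rcases mem_union.1 hk with hk | hk
  · obtain ⟨-, ⟨i, hi⟩ | ⟨j, hj⟩⟩ := mem_filter.1 hk
    · obtain ⟨i', k', he, -, hp⟩ := h1 _ hi
      cases he
      exact hp
    · obtain ⟨i', k', he, -⟩ := h1 _ hj
      cases he
  · obtain ⟨-, ⟨i, hi⟩ | ⟨j, hj⟩⟩ := mem_filter.1 hk
    · obtain ⟨i', k', he, -⟩ := h2 _ hi
      cases he
    · obtain ⟨k', j', he, hp, -⟩ := h2 _ hj
      cases he
      exact hp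

/-- Almost optimal rectangular products (from `Pool.Agent.Y640.RectMain`), and the size of the
blocks. -/
theorem exists_rect.{u} (d : ℕ) (hd : 2 ≤ d) : ∃ m₀ : ℕ, ∀ m ≥ m₀, ∀ s : ℕ, 1 ≤ s →
    s ^ (d + 8) ≤ m → (d + 10) * s ≤ m ∧ ∃ r : ℕ, d * r ≤ (d + 10) * m ^ 2 ∧
      ∀ (K : Type u) [CommRing K], MR K m m s r := by
  obtain ⟨n₀, h⟩ := Pool.Agent.Y640.Rect.main_MR.{u} d hd
  refine ⟨max n₀ (d + 10), fun m hm s h1 h2 => ⟨?_, h m (le_of_max_le_left hm) s h2⟩⟩
  rcases Nat.lt_or_ge s 2 with h3 | h3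
  · have : s = 1 := by omega
    subst this
    rw [mul_one]
    exact le_of_max_le_right hm
  · have h4 : d + 10 ≤ s ^ (d + 7) := by
      have h5 : d + 10 ≤ 2 ^ (d + 7) := by
        clear h h2 h3 h1 hm
        induction d with
        | zero => norm_num
        | succ d ih =>
          rcases Nat.lt_or_ge d 2 with h6 | h6
          · interval_cases d <;> norm_num
          · have := ih h6
            rw [show d + 1 + 7 = (d + 7) + 1 by ring, pow_succ]
            omega
      exact h5.trans (Nat.pow_le_pow_left h3 _)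
    calc (d + 10) * s ≤ s ^ (d + 7) * s := Nat.mul_le_mul_right _ h4
      _ = s ^ (d + 8) := by rw [← pow_succ]
      _ ≤ m := h2

end

end Pool.Agent.Y624.Mix
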