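import Pool.Agent.Y624.MixLow
import Pool.Agent.W329.AR.Basic

/-!
# Index mixing in circuits for matrix multiplication: constructions
-/

set_option autoImplicit false

namespace Pool.Agent.Y624.Mix

open Finset Pool.Agent.H88R3.MM Pool.Agent.W329.AR

section

variable {F : Type*} [Field F]

theorem vars_form {V : Type*} [Fintype V] [DecidableEq V] {n : ℕ} (f : Form F V n)
    (P : Fin n → MvPolynomial V F) (hb : ∀ t, f.b t = 0) {x : V} (hx : x ∈ (f.poly P).vars) :
    f.a x ≠ 0 := by
  intro h0
  have h1 : f.poly P = MvPolynomial.C f.c + ∑ y, MvPolynomial.C (f.a y) * MvPolynomial.X y := by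
    unfold Form.poly
    simp only [hb, map_zero, zero_mul, sum_const_zero, add_zero]
  rw [h1] at hx
  have h2 := MvPolynomial.vars_add_subset _ _ hx
  rw [MvPolynomial.vars_C, empty_union] at h2
  have h3 := MvPolynomial.vars_sum_subset _ _ h2
  rw [mem_biUnion] at h3
  obtain ⟨y, -, hy⟩ := h3
  by_cases hya : f.a y = 0
  · rw [hya, map_zero, zero_mul, MvPolynomial.vars_0] at hy
    exact absurd hy (notMem_empty _)
  · have h4 := MvPolynomial.vars_mul _ _ hy
    rw [MvPolynomial.vars_C, empty_union, MvPolynomial.vars_X, mem_singleton] at h4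
    rw [← h4] at hya
    exact hya h0

variable {m nb r : ℕ} {p q s : Fin nb → Fin m → Prop}

open Classical in
/-- the coefficients of the first factors -/
noncomputable def aL (u : (b : Fin nb) → Fin r → {i // p b i} × {k // q b k} → F)
    (z : Fin nb × Fin r) (x : Vars m) : F :=
  match x with
  | .inl (i, k) => if h : p z.1 i ∧ q z.1 k then u z.1 z.2 (⟨i, h.1⟩, ⟨k, h.2⟩) else 0
  | .inr _ => 0

open Classical in
/-- the coefficients of the second factors -/
noncomputable def aR (v : (b : Fin nb) → Fin r → {k // q b k} × {j // s b j} → F)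
    (z : Fin nb × Fin r) (x : Vars m) : F :=
  match x with
  | .inl _ => 0
  | .inr (k, j) => if h : q z.1 k ∧ s z.1 j then v z.1 z.2 (⟨k, h.1⟩, ⟨j, h.2⟩) else 0

open Classical in
/-- the coefficients of the outputs -/
noncomputable def aO (w : (b : Fin nb) → Fin r → {j // s b j} × {i // p b i} → F)
    (i j : Fin m) (z : Fin nb × Fin r) : F :=
  if h : p z.1 i ∧ s z.1 j then w z.1 z.2 (⟨j, h.2⟩, ⟨i, h.1⟩) else 0

open Classical in
/-- A circuit from bilinear algorithms for boxes. -/
theorem exists_circ (hpart : ∀ i k j, ∃! b, p b i ∧ q b k ∧ s b j)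
    (hrk : ∀ b, Rk (MMT F {i // p b i} {k // q b k} {j // s b j}) r) :
    ∃ (C : Circ F (Vars m) (nb * r)) (out : Fin m → Fin m → Form F (Vars m) (nb * r)),
      Multiplies C out ∧ ∀ t, ∃ b,
        (∀ x ∈ (C.leftPoly t).vars, ∃ i k, x = Sum.inl (i, k) ∧ p b i ∧ q b k) ∧
        (∀ x ∈ (C.rightPoly t).vars, ∃ k j, x = Sum.inr (k, j) ∧ q b k ∧ s b j) ∧
        ∀ i j, C.Used t (out i j) → p b i ∧ s b j := by
  choose u v w huvw using hrk
  let e : Fin nb × Fin r ≃ Fin (nb * r) := finProdFinEquiv
  let C : Circ F (Vars m) (nb * r) :=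
    { left := fun t => ⟨0, aL u (e.symm t), fun _ => 0⟩
      right := fun t => ⟨0, aR v (e.symm t), fun _ => 0⟩ }
  let out : Fin m → Fin m → Form F (Vars m) (nb * r) := fun i j =>
    ⟨0, fun _ => 0, fun t => aO w i j (e.symm t)⟩
  refine ⟨C, out, ?_, ?_⟩
  · -- the outputs
    have hprod : ∀ t : Fin (nb * r), C.prod t =
        (∑ x, MvPolynomial.C (aL u (e.symm t) x) * MvPolynomial.X x) *
          ∑ y, MvPolynomial.C (aR v (e.symm t) y) * MvPolynomial.X y := by
      intro t
      rw [prod_eq]
      have h1 : C.leftPoly t = ∑ x, MvPolynomial.C (aL u (e.symm t) x) * MvPolynomial.X x := by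
        show MvPolynomial.C 0 + _ + ∑ t', MvPolynomial.C 0 * _ = _
        simp only [map_zero, zero_mul, sum_const_zero, add_zero, zero_add]
        rfl
      have h2 : C.rightPoly t = ∑ x, MvPolynomial.C (aR v (e.symm t) x) * MvPolynomial.X x := by
        show MvPolynomial.C 0 + _ + ∑ t', MvPolynomial.C 0 * _ = _
        simp only [map_zero, zero_mul, sum_const_zero, add_zero, zero_add]
        rfl
      rw [h1, h2]
    have hcoef : ∀ (i j i1 k1 k2 j2 : Fin m), ∑ z : Fin nb × Fin r,
        aO w i j z * (aL u z (Sum.inl (i1, k1)) * aR v z (Sum.inr (k2, j2))) =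
        if i1 = i ∧ k1 = k2 ∧ j2 = j then 1 else 0 := by
      intro i j i1 k1 k2 j2
      rw [Fintype.sum_prod_type]
      have h1 : ∀ b : Fin nb, ∑ l : Fin r,
          aO w i j (b, l) * (aL u (b, l) (Sum.inl (i1, k1)) * aR v (b, l) (Sum.inr (k2, j2))) =
          if (p b i1 ∧ q b k1 ∧ s b j2) ∧ (i1 = i ∧ k1 = k2 ∧ j2 = j) then 1 else 0 := by
        intro b
        by_cases ha : p b i ∧ s b j
        · by_cases hb : p b i1 ∧ q b k1
          · by_cases hc : q b k2 ∧ s b j2
            · have h2 := huvw b (⟨i1, hb.1⟩, ⟨k1, hb.2⟩) (⟨k2, hc.1⟩, ⟨j2, hc.2⟩)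
                (⟨j, ha.2⟩, ⟨i, ha.1⟩)
              have h3 : ∀ l : Fin r, aO w i j (b, l) * (aL u (b, l) (Sum.inl (i1, k1)) *
                  aR v (b, l) (Sum.inr (k2, j2))) =
                  u b l (⟨i1, hb.1⟩, ⟨k1, hb.2⟩) * v b l (⟨k2, hc.1⟩, ⟨j2, hc.2⟩) *
                    w b l (⟨j, ha.2⟩, ⟨i, ha.1⟩) := by
                intro l
                simp only [aO, aL, aR, dif_pos ha, dif_pos hb, dif_pos hc]
                ring
              rw [sum_congr rfl fun l _ => h3 l, ← h2]
              simp only [MMT, Subtype.mk.injEq]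
              by_cases h4 : i1 = i ∧ k1 = k2 ∧ j2 = j
              · rw [if_pos h4, if_pos ⟨⟨hb.1, hb.2, hc.2⟩, h4⟩]
              · rw [if_neg h4, if_neg fun h => h4 h.2]
            · rw [if_neg, sum_eq_zero]
              · intro l _
                simp only [aR, dif_neg hc, mul_zero]
              · rintro ⟨⟨-, h5, h6⟩, -, h7, -⟩
                exact hc ⟨h7 ▸ h5, h6⟩
          · rw [if_neg, sum_eq_zero]
            · intro l _
              simp only [aL, dif_neg hb, zero_mul, mul_zero]
            · rintro ⟨⟨h4, h5, -⟩, -⟩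
              exact hb ⟨h4, h5⟩
        · rw [if_neg, sum_eq_zero]
          · intro l _
            simp only [aO, dif_neg ha, zero_mul]
          · rintro ⟨⟨h4, -, h6⟩, h7, -, h8⟩
            exact ha ⟨h7 ▸ h4, h8 ▸ h6⟩
      simp only [h1]
      by_cases h4 : i1 = i ∧ k1 = k2 ∧ j2 = j
      · obtain ⟨b0, hb0, huniq⟩ := hpart i1 k1 j2
        rw [if_pos h4, Finset.sum_eq_single b0]
        · rw [if_pos ⟨hb0, h4⟩]
        · intro b _ hb
          rw [if_neg fun h => hb (huniq b h.1)]
        · intro h
          exact absurd (mem_univ _) h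
      · rw [if_neg h4]
        exact sum_eq_zero fun b _ => if_neg fun h => h4 h.2
    intro i j
    have h1 : C.eval (out i j) = ∑ z : Fin nb × Fin r, MvPolynomial.C (aO w i j z) *
        ((∑ x, MvPolynomial.C (aL u z x) * MvPolynomial.X x) *
          ∑ y, MvPolynomial.C (aR v z y) * MvPolynomial.X y) := by
      show MvPolynomial.C 0 + ∑ x, MvPolynomial.C 0 * _ +
        ∑ t, MvPolynomial.C (aO w i j (e.symm t)) * C.prod t = _
      simp only [map_zero, zero_mul, sum_const_zero, add_zero, zero_add, hprod]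
      exact Equiv.sum_comp e.symm (fun z : Fin nb × Fin r => MvPolynomial.C (aO w i j z) *
        ((∑ x, MvPolynomial.C (aL u z x) * MvPolynomial.X x) *
          ∑ y, MvPolynomial.C (aR v z y) * MvPolynomial.X y))
    rw [h1]
    have h2 : ∀ z : Fin nb × Fin r, MvPolynomial.C (aO w i j z) *
        ((∑ x, MvPolynomial.C (aL u z x) * MvPolynomial.X x) *
          ∑ y, MvPolynomial.C (aR v z y) * MvPolynomial.X y : MvPolynomial (Vars m) F) =
        ∑ x : Fin m × Fin m, ∑ y : Fin m × Fin m,
          MvPolynomial.C (aO w i j z * (aL u z (Sum.inl x) * aR v z (Sum.inr y))) *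
            (MvPolynomial.X (Sum.inl x) * MvPolynomial.X (Sum.inr y)) := by
      intro z
      have h3 : (∑ x, MvPolynomial.C (aL u z x) * MvPolynomial.X x : MvPolynomial (Vars m) F) =
          ∑ x : Fin m × Fin m, MvPolynomial.C (aL u z (Sum.inl x)) *
            MvPolynomial.X (Sum.inl x) := by
        rw [Fintype.sum_sum_type, add_eq_left]
        exact sum_eq_zero fun x _ => by
          rw [show aL u z (Sum.inr x) = 0 from rfl, map_zero, zero_mul]
      have h4 : (∑ x, MvPolynomial.C (aR v z x) * MvPolynomial.X x : MvPolynomial (Vars m) F) =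
          ∑ x : Fin m × Fin m, MvPolynomial.C (aR v z (Sum.inr x)) *
            MvPolynomial.X (Sum.inr x) := by
        rw [Fintype.sum_sum_type, add_eq_right]
        exact sum_eq_zero fun x _ => by
          rw [show aR v z (Sum.inl x) = 0 from rfl, map_zero, zero_mul]
      rw [h3, h4, sum_mul_sum, mul_sum]
      refine sum_congr rfl fun x _ => ?_
      rw [mul_sum]
      refine sum_congr rfl fun y _ => ?_
      simp only [map_mul]
      ring
    simp only [h2]
    rw [sum_comm]
    have h5 : ∀ x : Fin m × Fin m, ∑ z : Fin nb × Fin r, ∑ y : Fin m × Fin m,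
          MvPolynomial.C (aO w i j z * (aL u z (Sum.inl x) * aR v z (Sum.inr y))) *
            (MvPolynomial.X (Sum.inl x) * MvPolynomial.X (Sum.inr y) : MvPolynomial (Vars m) F) =
        ∑ y : Fin m × Fin m, (if x.1 = i ∧ x.2 = y.1 ∧ y.2 = j then
          (MvPolynomial.X (Sum.inl x) * MvPolynomial.X (Sum.inr y)) else 0) := by
      intro x
      rw [sum_comm]
      refine sum_congr rfl fun y _ => ?_
      rw [← sum_mul, ← map_sum, hcoef i j x.1 x.2 y.1 y.2]
      split_ifs <;> simp
    simp only [h5]
    unfold entry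
    rw [Fintype.sum_prod_type, Finset.sum_eq_single i]
    · refine sum_congr rfl fun k _ => ?_
      rw [Finset.sum_eq_single (k, j)]
      · simp
      · rintro ⟨k', j'⟩ - hne
        rw [if_neg]
        rintro ⟨-, h6, h7⟩
        exact hne (by simp only at h6 h7; rw [h6, h7])
      · intro h
        exact absurd (mem_univ _) h
    · intro i' _ hi'
      refine sum_eq_zero fun k _ => sum_eq_zero fun y _ => ?_
      rw [if_neg fun h => hi' h.1]
    · intro h
      exact absurd (mem_univ _) h
  · intro t
    refine ⟨(e.symm t).1, ?_, ?_, ?_⟩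
    · intro x hx
      have h1 := vars_form (C.left t) _ (fun _ => rfl) hx
      rcases x with ⟨i, k⟩ | x
      · refine ⟨i, k, rfl, ?_⟩
        by_contra hcon
        exact h1 (dif_neg hcon)
      · exact absurd rfl h1
    · intro x hx
      have h1 := vars_form (C.right t) _ (fun _ => rfl) hx
      rcases x with x | ⟨k, j⟩
      · exact absurd rfl h1
      · refine ⟨k, j, rfl, ?_⟩
        by_contra hcon
        exact h1 (dif_neg hcon)
    · rintro i j ⟨t', ht', hpath⟩
      have h1 : t = t' := by
        rcases Relation.ReflTransGen.cases_head hpath with h | ⟨c, ⟨h, h2⟩, -⟩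
        · exact h
        · rcases h2 with h2 | h2
          · exact absurd rfl h2
          · exact absurd rfl h2
      subst h1
      by_contra hcon
      exact ht' (dif_neg hcon)

end

end Pool.Agent.Y624.Mix
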